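import Pool.Agent.E8helper61.SI.Stm3

/-!
# Project SI3 (helper61), MP_64e56f_co: piece C2
-/

set_option autoImplicit false

namespace Pool.Agent.E8helper7.SI

open Pool.Agent.E8helper61.SI

/-- weighted AM-GM -/
theorem term_le {lam a c : ℝ} (h0 : 0 < lam) (h1 : lam ≤ 1 / 2) (ha : 0 ≤ a) (hc : 0 < c) :
    a ^ (1 - lam) ≤ c ^ (2 * lam) * (2 * lam * (√a / c) + (1 - 2 * lam) * a) := by
  have h2 := Real.geom_mean_le_arith_mean2_weighted (w₁ := 2 * lam) (w₂ := 1 - 2 * lam)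
    (p₁ := √a / c) (p₂ := a) (by linarith) (by linarith) (by positivity) ha (by ring)
  have h3 : (√a / c) ^ (2 * lam) * a ^ (1 - 2 * lam) = a ^ (1 - lam) / c ^ (2 * lam) := by
    rw [Real.div_rpow (Real.sqrt_nonneg a) hc.le, Real.sqrt_eq_rpow, ← Real.rpow_mul ha,
      div_mul_eq_mul_div]
    congr 1
    rcases ha.eq_or_lt with h | h
    · rw [← h, Real.zero_rpow (by linarith : (1 : ℝ) / 2 * (2 * lam) ≠ 0),
        Real.zero_rpow (by linarith : (1 : ℝ) - lam ≠ 0), zero_mul]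
    · rw [← Real.rpow_add h]
      congr 1
      ring
  rw [h3, div_le_iff₀ (by positivity)] at h2
  linarith

theorem c2 : C2Statement := by
  intro lam x h0 h1 hx1 hx2
  have hb : 0 ≤ 2 - x := by linarith
  have hx0 : 0 < x := by linarith
  set c : ℝ := (√x + √(2 - x)) / 2 with hc
  have hsx : 0 < √x := Real.sqrt_pos.2 hx0
  have hsb : 0 ≤ √(2 - x) := Real.sqrt_nonneg _
  have hc0 : 0 < c := by positivity
  have hM0 : 0 < Mf lam x := by
    unfold Mf
    have h2 : 0 < x ^ (1 - lam) := Real.rpow_pos_of_pos hx0 _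
    have h3 : 0 ≤ (2 - x) ^ (1 - lam) := Real.rpow_nonneg hb _
    positivity
  have hM : Mf lam x ≤ c ^ (2 * lam) := by
    have h2 := term_le h0 h1 hx0.le hc0
    have h3 := term_le h0 h1 hb hc0
    have h4 : √x / c + √(2 - x) / c = 2 := by
      rw [← add_div, div_eq_iff hc0.ne', hc]
      ring
    have h5 : x ^ (1 - lam) + (2 - x) ^ (1 - lam) ≤ c ^ (2 * lam) * 2 := by
      calc x ^ (1 - lam) + (2 - x) ^ (1 - lam)
          ≤ c ^ (2 * lam) * (2 * lam * (√x / c) + (1 - 2 * lam) * x) +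
            c ^ (2 * lam) * (2 * lam * (√(2 - x) / c) + (1 - 2 * lam) * (2 - x)) := add_le_add h2 h3
        _ = c ^ (2 * lam) * (2 * lam * (√x / c + √(2 - x) / c) + (1 - 2 * lam) * 2) := by ring
        _ = c ^ (2 * lam) * 2 := by rw [h4]; ring
    unfold Mf
    linarith
  have hcsq : c ^ 2 ≤ 1 - (x - 1) ^ 2 / 4 := by
    have e1 : √x * √x = x := Real.mul_self_sqrt hx0.le
    have e2 : √(2 - x) * √(2 - x) = 2 - x := Real.mul_self_sqrt hb
    have e3 : √x * √(2 - x) ≤ 1 - (x - 1) ^ 2 / 2 := by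
      rw [← Real.sqrt_mul hx0.le]
      refine Real.sqrt_le_iff.2 ⟨by nlinarith, ?_⟩
      nlinarith [sq_nonneg ((x - 1) ^ 2)]
    rw [hc]
    nlinarith
  have hlog : Real.log (Mf lam x) ≤ 2 * lam * Real.log c := by
    rw [← Real.log_rpow hc0]
    exact Real.log_le_log hM0 hM
  have hw : (x - 1) ^ 2 / 4 ≤ wf lam x := by
    unfold wf
    rw [one_div, Real.log_inv, le_div_iff₀ h0]
    have h6 : Real.log (c ^ 2) ≤ c ^ 2 - 1 := Real.log_le_sub_one_of_pos (by positivity)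
    rw [Real.log_pow] at h6
    push_cast at h6
    have h7 : 2 * Real.log c ≤ -((x - 1) ^ 2 / 4) := by linarith
    nlinarith
  refine ⟨hM0, le_trans (by positivity) hw, ?_⟩
  have hu0 : 0 ≤ uf x := by
    unfold uf
    have : 1 / x ≤ 1 := by rw [div_le_one hx0]; exact hx1
    linarith
  have hu1 : uf x ≤ 2 * (x - 1) := by
    unfold uf
    have : 1 - 1 / x ≤ x - 1 := by
      rw [sub_le_iff_le_add, ← sub_le_iff_le_add', le_div_iff₀ hx0]
      nlinarith
    linarith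
  have h8 : (uf x) ^ 2 ≤ (2 * (x - 1)) ^ 2 := by
    exact pow_le_pow_left₀ hu0 hu1 2
  nlinarith

end Pool.Agent.E8helper7.SI
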